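import Pool.Agent.Work.MP_70e905_nt.Eta.One
import Pool.Agent.Work.MP_70e905_nt.CL3.All3

set_option autoImplicit false

namespace Pool.Agent.Work.MP_70e905_nt.Cand3.NearDifferences

/-- There is `C` such that for every `x ≥ 1` and all integers `0 ≤ h 0 ≤ h 1 ≤ h 2 ≤ h 3 ≤ x` there are
`i < j` and primes `x < q < p ≤ C x` such that `p - q` exceeds `h j - h i` by at most `C`. With
`h i = i n`: for every `n` one of `n, 2 n, 3 n` is up to `C` a difference of two primes of every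
size from `3 n` on. -/
theorem result : ∃ C : ℕ, ∀ x : ℕ, 1 ≤ x → ∀ h : Fin 4 → ℕ, Monotone h → (∀ i, h i ≤ x) →
    ∃ i j : Fin 4, i < j ∧ ∃ p q : ℕ, p.Prime ∧ q.Prime ∧ x < q ∧ p ≤ C * x ∧
      (h j : ℤ) - h i < (p : ℤ) - q ∧ (p : ℤ) - q ≤ (h j : ℤ) - h i + C := by
  obtain ⟨C, hC⟩ := PoolQ4.eta_one 3 PoolCL.clusterPlus_three
  refine ⟨C, fun x hx h hm hh => ?_⟩
  obtain ⟨i, j, hij, p, q, hp, hq, hxq, hpC, h1, h2⟩ := hC x hx h hm hh
  exact ⟨i, j, hij, p, q, hp, hq, hxq, hpC, by omega, by omega⟩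

end Pool.Agent.Work.MP_70e905_nt.Cand3.NearDifferences
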