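import Pool.Agent.Work.MP_70e905_nt.Pol.Third
import Pool.Agent.Work.MP_70e905_nt.Pol.Final
import Pool.Agent.Work.MP_70e905_nt.CL3.All3

/-!
# A third of the multiples of every even number are Polignac numbers

For every `k ≥ 1` and `ε > 0` there is `ℓ₀` such that of any `ℓ ≥ ℓ₀` consecutive multiples
`2 k (X + 1), ..., 2 k (X + ℓ)` of `2 k` at least `(1/3 - ε) ℓ` are equal to `p (n + 1) - p n` for
infinitely many `n`, where `p n` is the sequence of the primes.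
-/

set_option autoImplicit false

namespace Pool.Agent.Work.MP_70e905_nt.Cand3.PolignacMultiples

open PoolQ4 PoolPol

theorem admissible_mul {ι : Type} [Fintype ι] (k : ℕ) (h : ι → ℕ)
    (hadm : Admissible (Finset.univ.image h)) :
    Admissible (Finset.univ.image fun i => k * h i) := by
  classical
  intro p hp
  by_cases hpk : p ∣ k
  · refine ⟨1, fun a ha => ?_⟩
    obtain ⟨i, -, rfl⟩ := Finset.mem_image.1 ha
    intro hd
    have h1 : p ∣ k * h i := Dvd.dvd.mul_right hpk _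
    exact hp.one_lt.ne' (Nat.dvd_one.1 ((Nat.dvd_add_left h1).1 hd))
  · obtain ⟨v, hv⟩ := hadm p hp
    refine ⟨k * v, fun a ha => ?_⟩
    obtain ⟨i, -, rfl⟩ := Finset.mem_image.1 ha
    intro hd
    rw [← Nat.mul_add] at hd
    rcases hp.dvd_mul.1 hd with h1 | h1
    · exact hpk h1
    · exact hv (h i) (Finset.mem_image_of_mem _ (Finset.mem_univ _)) h1

theorem even_dist {ι : Type} [Fintype ι] (h : ι → ℕ)
    (hadm : Admissible (Finset.univ.image h)) (i j : ι) : Even (Nat.dist (h i) (h j)) := by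
  classical
  obtain ⟨v, hv⟩ := hadm 2 Nat.prime_two
  have h1 := hv (h i) (Finset.mem_image_of_mem _ (Finset.mem_univ _))
  have h2 := hv (h j) (Finset.mem_image_of_mem _ (Finset.mem_univ _))
  rw [Nat.even_iff]
  unfold Nat.dist
  omega

theorem cluP_mul {K L : ℕ} {P : ℕ → Prop} (hP : CluP K L P) (k : ℕ) (hk : 1 ≤ k) :
    CluP K L fun m => Even m ∧ P (k * m) := by
  intro h hinj hadm
  obtain ⟨s, t, hst, h1⟩ := hP (fun i => k * h i)
    (fun a b hab => hinj (Nat.eq_of_mul_eq_mul_left (by omega) hab)) (admissible_mul k h hadm)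
  refine ⟨s, t, hst, even_dist h hadm s t, ?_⟩
  have h2 : k * Nat.dist (h s) (h t) = Nat.dist (k * h s) (k * h t) := (Nat.dist_mul_left k _ _).symm
  rw [h2]
  exact h1

theorem result (k : ℕ) (hk : 1 ≤ k) (ε : ℝ) (hε : 0 < ε) :
    ∃ ℓ₀ : ℕ, ∀ X ℓ : ℕ, ℓ₀ ≤ ℓ →
      (1 / 3 - ε) * (ℓ : ℝ) ≤
        (({m : ℕ | X < m ∧ m ≤ X + ℓ ∧
          {n : ℕ | Nat.nth Nat.Prime (n + 1) = Nat.nth Nat.Prime n + 2 * k * m}.Infinite}.ncard
            : ℕ) : ℝ) := by
  classical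
  obtain ⟨L, _, hL⟩ := PoolPol.cluP_polignac PoolCL.clusterPlus_three
  obtain ⟨ℓ₀, h⟩ := PoolPol.third L (fun m => Even m ∧ PoolPol.Polignac (k * m))
    (cluP_mul hL k hk) (ε / 2) (half_pos hε)
  refine ⟨ℓ₀, fun X ℓ hℓ => ?_⟩
  have h1 : {m : ℕ | X < m ∧ m ≤ X + ℓ ∧
      {n : ℕ | Nat.nth Nat.Prime (n + 1) = Nat.nth Nat.Prime n + 2 * k * m}.Infinite} =
      (((Finset.Ioc X (X + ℓ)).filter fun m => PoolPol.Polignac (2 * k * m) : Finset ℕ) : Set ℕ) := by
    ext m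
    rw [Finset.mem_coe, Finset.mem_filter, Finset.mem_Ioc]
    constructor
    · rintro ⟨h2, h3, h4⟩
      exact ⟨⟨h2, h3⟩, h4⟩
    · rintro ⟨⟨h2, h3⟩, h4⟩
      exact ⟨h2, h3, h4⟩
  rw [h1, Set.ncard_coe_finset]
  have h2 : ((Finset.Ioc (2 * X) (2 * X + 2 * ℓ)).filter
      fun m => Even m ∧ PoolPol.Polignac (k * m)).card =
      ((Finset.Ioc X (X + ℓ)).filter fun m => PoolPol.Polignac (2 * k * m)).card := by
    symm
    refine Finset.card_bij (fun m _ => 2 * m) ?_ ?_ ?_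
    · intro m hm
      rw [Finset.mem_filter, Finset.mem_Ioc] at hm ⊢
      refine ⟨⟨by omega, by omega⟩, even_two_mul m, ?_⟩
      have h3 : k * (2 * m) = 2 * k * m := by ring
      rw [h3]
      exact hm.2
    · intro a _ b _ hab
      omega
    · intro m hm
      rw [Finset.mem_filter, Finset.mem_Ioc] at hm
      obtain ⟨⟨h3, h4⟩, ⟨r, rfl⟩, h5⟩ := hm
      refine ⟨r, ?_, by ring⟩
      rw [Finset.mem_filter, Finset.mem_Ioc]
      refine ⟨⟨by omega, by omega⟩, ?_⟩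
      have h6 : 2 * k * r = k * (r + r) := by ring
      rw [h6]
      exact h5
  have h3 := h (2 * X) (2 * ℓ) (by omega)
  rw [h2] at h3
  have h4 : (1 / 3 - ε) * (ℓ : ℝ) = (1 / 6 - ε / 2) * ((2 * ℓ : ℕ) : ℝ) := by
    push_cast
    ring
  rw [h4]
  exact h3

end Pool.Agent.Work.MP_70e905_nt.Cand3.PolignacMultiples
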