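import Pool.Agent.Work.MP_70e905_nt.Pol.Third
import Pool.Agent.Work.MP_70e905_nt.Pol.Final
import Pool.Agent.Work.MP_70e905_nt.CL3.All3

/-!
# A third of the even numbers of every long interval are Polignac numbers

For every `ε > 0` every sufficiently long interval `(X, X + ℓ]` contains at least `(1/6 - ε) ℓ`
integers `h` such that `p (n + 1) - p n = h` for infinitely many `n`, where `p n` is the sequence of
the primes.
-/

set_option autoImplicit false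

namespace Pool.Agent.Work.MP_70e905_nt.Cand3.PolignacThird

theorem result (ε : ℝ) (hε : 0 < ε) :
    ∃ ℓ₀ : ℕ, ∀ X ℓ : ℕ, ℓ₀ ≤ ℓ →
      (1 / 6 - ε) * (ℓ : ℝ) ≤
        (({h : ℕ | X < h ∧ h ≤ X + ℓ ∧
          {n : ℕ | Nat.nth Nat.Prime (n + 1) = Nat.nth Nat.Prime n + h}.Infinite}.ncard : ℕ) : ℝ) := by
  classical
  obtain ⟨L, _, hL⟩ := PoolPol.cluP_polignac PoolCL.clusterPlus_three
  obtain ⟨ℓ₀, h⟩ := PoolPol.third L PoolPol.Polignac hL ε hε
  refine ⟨ℓ₀, fun X ℓ hℓ => ?_⟩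
  have h1 : {h : ℕ | X < h ∧ h ≤ X + ℓ ∧
      {n : ℕ | Nat.nth Nat.Prime (n + 1) = Nat.nth Nat.Prime n + h}.Infinite} =
      (((Finset.Ioc X (X + ℓ)).filter PoolPol.Polignac : Finset ℕ) : Set ℕ) := by
    ext k
    rw [Finset.mem_coe, Finset.mem_filter, Finset.mem_Ioc]
    constructor
    · rintro ⟨h2, h3, h4⟩
      exact ⟨⟨h2, h3⟩, h4⟩
    · rintro ⟨⟨h2, h3⟩, h4⟩
      exact ⟨h2, h3, h4⟩
  rw [h1, Set.ncard_coe_finset]
  exact h X ℓ hℓ

end Pool.Agent.Work.MP_70e905_nt.Cand3.PolignacThird
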