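import Pool.Agent.Work.MP_70e905_nt.Flat.FlatMain
import Pool.Agent.Work.MP_70e905_nt.CL3.All3

set_option autoImplicit false

namespace Pool.Agent.Work.MP_70e905_nt.Cand3.ThirdOfMultiples

open Finset Classical PoolQ4

/-- For every `ε > 0` there is `M₀` such that for EVERY `n ≥ 1` and every `M ≥ M₀` the multiples
`m n`, `m ≤ M`, which are differences of two primes `≤ 3 M n` carry at least the proportion
`1/3 - ε` of the Hardy-Littlewood singular series of all multiples `m n`, `m ≤ M`. -/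
theorem result (ε : ℝ) (hε : 0 < ε) : ∃ M₀ : ℕ, ∀ n M : ℕ, 1 ≤ n → M₀ ≤ M →
    (1 / 3 - ε) * ∑ m ∈ Icc 1 M, hl (m * n) ≤
      ∑ m ∈ (Icc 1 M).filter (fun m => ∃ p q : ℕ, p.Prime ∧ q.Prime ∧ p ≤ 3 * M * n ∧
        p = q + m * n), hl (m * n) := by
  obtain ⟨M₀, h⟩ := PoolFlat.flat_multiples 3 (by norm_num) PoolCL.clusterPlus_three ε hε
  refine ⟨M₀, fun n M hn hM => ?_⟩
  have h1 := h n M hn hM
  simp only [DiffPrimes] at h1
  norm_num at h1 ⊢
  exact h1

end Pool.Agent.Work.MP_70e905_nt.Cand3.ThirdOfMultiples
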