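import Pool.Agent.Work.MP_70e905_nt.CL3.All3
import Pool.Agent.Work.MP_70e905_nt.CL3.UnivPC
import Pool.Agent.Work.MP_70e905_nt.CL3.UnivRP

set_option autoImplicit false

namespace Pool.Agent.Work.MP_70e905_nt.Cand3.UniversalSubsets

open Finset Classical

/-- For every `r ≥ 1` and `ε > 0` there is `n₀` such that for every `C` and all large `x`: if `H` is a
set of at least `n₀` integers in `[0, C x]` which for every prime `p` misses a residue class modulo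
`p`, then at least the proportion `c r - ε` of the `r`-element subsets `S` of `H` is such that
`z + h` is prime for all `h ∈ S`, for some `z` in `(x, 2x]`; here `c 2 = 1/3` and
`c r = (1/4 + 10^(-19))^(r-1)` for `r ≠ 2`. -/
theorem result (r : ℕ) (hr : 1 ≤ r) (ε : ℝ) (hε : 0 < ε) : ∃ n₀ : ℕ, ∀ C : ℕ, ∃ x₀ : ℕ,
    ∀ x : ℕ, x₀ ≤ x → ∀ H : Finset ℕ, (∀ p : ℕ, p.Prime → ∃ v : ℕ, ∀ h ∈ H, ¬ p ∣ v + h) →
      (∀ h ∈ H, h ≤ C * x) → n₀ ≤ #H →
      ((if r = 2 then 1 / 3 else (1 / 4 + 1 / 10 ^ 19) ^ (r - 1)) - ε) * ((#H).choose r : ℝ) ≤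
        (#{S ∈ H.powersetCard r | ∃ z, x < z ∧ z ≤ 2 * x ∧ ∀ h ∈ S, (z + h).Prime} : ℝ) := by
  by_cases h2 : r = 2
  · subst h2
    obtain ⟨k₀, h⟩ := PoolCL.univ_pairs_C 3 (by norm_num) PoolCL.clusterPlus_three ε hε
    refine ⟨k₀, fun C => ?_⟩
    obtain ⟨x₀, h⟩ := h C
    refine ⟨x₀, fun x hx H hH hHx hn => ?_⟩
    have h1 := h x H hx hHx hH hn
    rw [show ((3 : ℕ) : ℝ) = 3 by norm_num] at h1
    rw [if_pos rfl]
    exact h1
  · rw [if_neg h2]
    exact PoolCL.univ_rp (1 / 4 + 1 / 10 ^ 19) (by norm_num) (by norm_num)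
      (fun N hN => PoolCL.clusterP_all N hN) r hr ε hε

end Pool.Agent.Work.MP_70e905_nt.Cand3.UniversalSubsets
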